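import Pool.Agent.Work.MP_99279c_al.Met.Flow

/-!
If a word is a law of `Sym(n)` then its flow vanishes modulo `q` after folding the grid to a cyclic
group of order `m`, whenever `m * q ≤ n`.
-/

set_option autoImplicit false

namespace Pool.MP99279c.Met

/-- The permutation of `ℤ/m × ℤ/q` attached to a label. -/
def qstep {m q : ℕ} (s : Fin 2 → ZMod m) (l : Fin 2 → ZMod m → ZMod q) (i : Fin 2) :
    Equiv.Perm (ZMod m × ZMod q) where
  toFun z := (z.1 + s i, z.2 + l i z.1)
  invFun z := (z.1 - s i, z.2 - l i (z.1 - s i))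
  left_inv z := by simp
  right_inv z := by simp

/-- The homomorphism of the grid onto a cyclic group. -/
def fold {m : ℕ} (s : Fin 2 → ZMod m) (p : ℤ × ℤ) : ZMod m := p.1 * s 0 + p.2 * s 1

theorem fold_add {m : ℕ} (s : Fin 2 → ZMod m) (p : ℤ × ℤ) (i : Fin 2) :
    fold s (p + e i) = fold s p + s i := by
  fin_cases i <;> simp [fold, e] <;> ring

theorem fold_sub {m : ℕ} (s : Fin 2 → ZMod m) (p : ℤ × ℤ) (i : Fin 2) :
    fold s (p - e i) = fold s p - s i := by
  fin_cases i <;> simp [fold, e] <;> ring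

/-- Equivariance: the path in the quotient is computed by the flow. -/
theorem qact_eq {m q : ℕ} (s : Fin 2 → ZMod m) (l : Fin 2 → ZMod m → ZMod q) (w : F) :
    FreeGroup.lift (qstep s l) w (0, 0) =
      (fold s (pos w), Finsupp.linearCombination ℤ (fun x : Edge => l x.1 (fold s x.2)) (flow w)) := by
  refine word_induction (C := fun _ w => FreeGroup.lift (qstep s l) w (0, 0) =
      (fold s (pos w), Finsupp.linearCombination ℤ (fun x : Edge => l x.1 (fold s x.2)) (flow w)))
      ?_ ?_ ?_ w
  · simp [pos_one, flow_one, fold]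
  · intro n i w h
    rw [map_mul, Equiv.Perm.mul_apply, h, FreeGroup.lift_apply_of, pos_of_mul, flow_of_mul, map_add,
      Finsupp.linearCombination_single, one_smul, fold_add]
    rfl
  · intro n i w h
    rw [map_mul, Equiv.Perm.mul_apply, h, map_inv, FreeGroup.lift_apply_of, pos_inv_mul,
      flow_inv_mul, map_sub, Finsupp.linearCombination_single, one_smul, fold_sub]
    rfl

/-- A law of `Sym(n)` is a law for permutations of every set with at most `n` elements. -/
theorem law_small {n : ℕ} {w : F} (hw : ∀ f : Fin 2 → Equiv.Perm (Fin n), FreeGroup.lift f w = 1)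
    {α : Type} [Fintype α] (hα : Fintype.card α ≤ n) (g : Fin 2 → Equiv.Perm α) :
    FreeGroup.lift g w = 1 := by
  classical
  obtain ⟨ι⟩ : Nonempty (α ↪ Fin n) := by
    rw [Function.Embedding.nonempty_iff_card_le, Fintype.card_fin]
    exact hα
  apply Equiv.Perm.viaEmbeddingHom_injective ι
  rw [map_one]
  have h := hw (fun i => Equiv.Perm.viaEmbeddingHom ι (g i))
  rw [← h]
  have : (Equiv.Perm.viaEmbeddingHom ι).comp (FreeGroup.lift g) =
      FreeGroup.lift (fun i => Equiv.Perm.viaEmbeddingHom ι (g i)) := by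
    ext i
    simp
  rw [← this]
  rfl

/-- The folded flow through the edges with label `i` over the residue `c`. -/
noncomputable def folded {m : ℕ} (s : Fin 2 → ZMod m) (w : F) (i : Fin 2) (c : ZMod m) : ℤ :=
  Finsupp.linearCombination ℤ (fun x : Edge => if x.1 = i ∧ fold s x.2 = c then (1 : ℤ) else 0)
    (flow w)

theorem folded_bound {m : ℕ} (s : Fin 2 → ZMod m) (w : F) (i : Fin 2) (c : ZMod m) :
    |folded s w i c| ≤ w.toWord.length := by
  apply flow_integral
  intro x
  split_ifs <;> simp

theorem folded_dvd {n m q : ℕ} {w : F}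
    (hw : ∀ f : Fin 2 → Equiv.Perm (Fin n), FreeGroup.lift f w = 1)
    (hm : 0 < m) (hq : 0 < q) (h : m * q ≤ n) (s : Fin 2 → ZMod m) (i : Fin 2) (c : ZMod m) :
    (q : ℤ) ∣ folded s w i c := by
  have : NeZero m := ⟨hm.ne'⟩
  have : NeZero q := ⟨hq.ne'⟩
  have h1 := law_small hw (α := ZMod m × ZMod q)
    (by rw [Fintype.card_prod, ZMod.card, ZMod.card]; exact h)
    (qstep s (fun j d => if j = i ∧ d = c then 1 else 0))
  have h2 := qact_eq s (fun j d => if j = i ∧ d = c then (1 : ZMod q) else 0) w
  rw [h1] at h2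
  have h3 := congrArg Prod.snd h2
  simp only [Equiv.Perm.one_apply] at h3
  rw [← ZMod.intCast_zmod_eq_zero_iff_dvd] 
  rw [folded]
  rw [Finsupp.linearCombination_apply, Finsupp.sum] at h3 ⊢
  push_cast
  rw [h3]
  apply Finset.sum_congr rfl
  intro x _
  split_ifs <;> simp

end Pool.MP99279c.Met
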