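import Pool.Agent.Work.MP_99279c_al.Met.Flow

/-!
A word with zero flow lies in the second derived subgroup.
-/

set_option autoImplicit false

namespace Pool.MP99279c.Met

/-- The standard transversal of the commutator subgroup. -/
def tr (p : ℤ × ℤ) : F := FreeGroup.of 0 ^ p.1 * FreeGroup.of 1 ^ p.2

theorem tr_zero : tr 0 = 1 := by simp [tr]

theorem ab_tr (p : ℤ × ℤ) : Abelianization.of (tr p) =
    Abelianization.of (FreeGroup.of (0 : Fin 2)) ^ p.1 *
      Abelianization.of (FreeGroup.of (1 : Fin 2)) ^ p.2 := by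
  simp [tr]

theorem mem_comm_iff (g : F) : g ∈ commutator F ↔ Abelianization.of g = 1 := by
  rw [← Abelianization.ker_of, MonoidHom.mem_ker]

theorem gen_mem (i : Fin 2) (p : ℤ × ℤ) :
    (tr (p + e i))⁻¹ * FreeGroup.of i * tr p ∈ commutator F := by
  rw [mem_comm_iff]
  simp only [map_mul, map_inv, ab_tr]
  fin_cases i
  · simp only [e, Prod.fst_add, Prod.snd_add, Fin.zero_eta, Fin.isValue, if_true, zpow_add,
      zpow_one, add_zero]
    group
  · simp only [e, Prod.fst_add, Prod.snd_add, Fin.mk_one, Fin.isValue, one_ne_zero, if_false,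
      zpow_add, zpow_one, add_zero]
    rw [mul_assoc, inv_mul_eq_one, mul_comm (Abelianization.of (FreeGroup.of (1 : Fin 2))),
      mul_assoc]

/-- The class of an element of the commutator subgroup. -/
noncomputable def cl (g : F) : Additive (Abelianization (commutator F)) :=
  open Classical in
  if h : g ∈ commutator F then Additive.ofMul (Abelianization.of ⟨g, h⟩) else 0

theorem cl_mul {a b : F} (ha : a ∈ commutator F) (hb : b ∈ commutator F) :
    cl (a * b) = cl a + cl b := by
  have hab : a * b ∈ commutator F := mul_mem ha hb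
  simp only [cl, ha, hb, hab, dif_pos]
  rw [← ofMul_mul, ← map_mul]
  rfl

theorem cl_inv {a : F} (ha : a ∈ commutator F) : cl a⁻¹ = - cl a := by
  have hab : a⁻¹ ∈ commutator F := inv_mem ha
  simp only [cl, ha, hab, dif_pos]
  rw [← ofMul_inv, ← map_inv]
  rfl

theorem cl_one : cl 1 = 0 := by
  have h : (1 : F) ∈ commutator F := one_mem _
  simp only [cl, h, dif_pos]
  rw [← ofMul_one, ← map_one Abelianization.of]
  rfl

theorem mem_second_of_cl {a : F} (ha : a ∈ commutator F) (h : cl a = 0) :
    a ∈ derivedSeries F 2 := by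
  simp only [cl, ha, dif_pos] at h
  have h2 : Abelianization.of (⟨a, ha⟩ : commutator F) = 1 := h
  rw [← MonoidHom.mem_ker, Abelianization.ker_of] at h2
  have h3 : a ∈ Subgroup.map (commutator F).subtype (commutator (commutator F)) :=
    ⟨⟨a, ha⟩, h2, rfl⟩
  rw [commutator_def (commutator F), Subgroup.map_commutator] at h3
  have h4 : Subgroup.map (commutator F).subtype ⊤ = commutator F := by
    rw [← MonoidHom.range_eq_map, Subgroup.range_subtype]
  rw [h4] at h3
  rw [derivedSeries_succ, derivedSeries_one]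
  exact h3

/-- The Schreier generators, as classes. -/
noncomputable def gen (x : Edge) : Additive (Abelianization (commutator F)) :=
  cl ((tr (x.2 + e x.1))⁻¹ * FreeGroup.of x.1 * tr x.2)

theorem key (w : F) : (tr (pos w))⁻¹ * w ∈ commutator F ∧
    cl ((tr (pos w))⁻¹ * w) = Finsupp.linearCombination ℤ gen (flow w) := by
  refine word_induction (C := fun _ w => (tr (pos w))⁻¹ * w ∈ commutator F ∧
    cl ((tr (pos w))⁻¹ * w) = Finsupp.linearCombination ℤ gen (flow w)) ?_ ?_ ?_ w
  · simp only [pos_one, tr_zero, flow_one, map_zero, inv_one, one_mul]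
    exact ⟨one_mem _, cl_one⟩
  · intro n i w h
    obtain ⟨h1, h2⟩ := h
    have h3 : (tr (pos (FreeGroup.of i * w)))⁻¹ * (FreeGroup.of i * w) =
        ((tr (pos w + e i))⁻¹ * FreeGroup.of i * tr (pos w)) * ((tr (pos w))⁻¹ * w) := by
      rw [pos_of_mul]
      group
    have h4 := gen_mem i (pos w)
    rw [h3]
    refine ⟨mul_mem h4 h1, ?_⟩
    rw [cl_mul h4 h1, h2, flow_of_mul, map_add, Finsupp.linearCombination_single, one_smul,
      add_comm]
    rfl
  · intro n i w h
    obtain ⟨h1, h2⟩ := h
    have h4 := gen_mem i (pos w - e i)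
    rw [sub_add_cancel] at h4
    have h3 : (tr (pos ((FreeGroup.of i)⁻¹ * w)))⁻¹ * ((FreeGroup.of i)⁻¹ * w) =
        ((tr (pos w))⁻¹ * FreeGroup.of i * tr (pos w - e i))⁻¹ * ((tr (pos w))⁻¹ * w) := by
      rw [pos_inv_mul]
      group
    rw [h3]
    refine ⟨mul_mem (inv_mem h4) h1, ?_⟩
    rw [cl_mul (inv_mem h4) h1, cl_inv h4, h2, flow_inv_mul, map_sub,
      Finsupp.linearCombination_single, one_smul]
    simp only [gen, sub_add_cancel]
    abel

/-- A word with zero flow lies in the second derived subgroup. -/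
theorem mem_second_of_flow (w : F) (h : flow w = 0) : w ∈ derivedSeries F 2 := by
  have h1 : pos w = 0 := by rw [pos_eq, h, map_zero]
  obtain ⟨h2, h3⟩ := key w
  rw [h1, tr_zero, inv_one, one_mul] at h2 h3
  rw [h, map_zero] at h3
  exact mem_second_of_cl h2 h3

end Pool.MP99279c.Met
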