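import Pool.Agent.Work.MP_99279c_al.Met.Poly
import Pool.Agent.Work.MP_99279c_al.Met.Second
import Pool.Agent.Work.MP_99279c_al.Met.Fold

/-!
Assembly of the lower bound for laws outside the second derived subgroup.
-/

set_option autoImplicit false

namespace Pool.MP99279c.Met

open Polynomial

/-- The coefficients of the flow through edges of a given label, shifted to natural exponents. -/
noncomputable def coef (w : F) (i : Fin 2) (a b : ℕ) : ℤ :=
  flow w (i, ((a : ℤ) - w.toWord.length, (b : ℤ) - w.toWord.length))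

theorem coef_fold {m : ℕ} (w : F) (i : Fin 2) (s t : ℕ) (c : ZMod m) :
    ∑ p ∈ (Finset.range (2 * w.toWord.length + 1) ×ˢ
        Finset.range (2 * w.toWord.length + 1)).filter
      (fun p => ((s * p.1 + t * p.2 : ℕ) : ZMod m) = c), coef w i p.1 p.2 =
    folded (fun j => if j = 0 then (s : ZMod m) else (t : ZMod m)) w i
      (c - ((s + t) * w.toWord.length : ℕ)) := by
  classical
  set L := w.toWord.length with hL
  let ι : ℕ × ℕ → Edge := fun p => (i, ((p.1 : ℤ) - L, (p.2 : ℤ) - L))
  have hι : Function.Injective ι := by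
    rintro ⟨a, b⟩ ⟨c, d⟩ h
    simp only [ι, Prod.mk.injEq, true_and] at h ⊢
    omega
  let g : Edge → ℤ := fun x => flow w x * (if x.1 = i ∧
    fold (fun j => if j = 0 then (s : ZMod m) else (t : ZMod m)) x.2 =
      (c - ((s + t) * L : ℕ)) then (1 : ℤ) else 0)
  have h1 : folded (fun j => if j = 0 then (s : ZMod m) else (t : ZMod m)) w i
      (c - ((s + t) * L : ℕ)) = ∑ x ∈ (flow w).support, g x := by
    rw [folded, Finsupp.linearCombination_apply, Finsupp.sum]
    apply Finset.sum_congr rfl
    intro x _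
    rfl
  set B := (Finset.range (2 * L + 1) ×ˢ Finset.range (2 * L + 1)).image ι with hB
  have h2 : ∑ x ∈ (flow w).support, g x = ∑ x ∈ (flow w).support ∪ B, g x := by
    apply Finset.sum_subset Finset.subset_union_left
    intro x _ hx
    have : flow w x = 0 := by simpa using hx
    simp only [g, this, zero_mul]
  have h3 : ∑ x ∈ B, g x = ∑ x ∈ (flow w).support ∪ B, g x := by
    apply Finset.sum_subset Finset.subset_union_right
    intro x hx hxB
    by_cases hxs : x ∈ (flow w).support
    · have hb := flow_support w x hxs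
      have hxi : x.1 ≠ i := by
        intro hxi
        apply hxB
        rw [hB, Finset.mem_image]
        obtain ⟨j, a, b⟩ := x
        simp only at hb hxi
        rw [abs_le, abs_le] at hb
        refine ⟨((a + L).toNat, (b + L).toNat), ?_, ?_⟩
        · simp only [Finset.mem_product, Finset.mem_range]
          omega
        · simp only [ι, Prod.mk.injEq]
          exact ⟨hxi.symm, by omega, by omega⟩
      simp only [g, hxi, false_and, if_false, mul_zero]
    · have : flow w x = 0 := by simpa using hxs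
      simp only [g, this, zero_mul]
  rw [h1, h2, ← h3, hB, Finset.sum_image (fun a _ b _ h => hι h), Finset.sum_filter]
  apply Finset.sum_congr rfl
  intro p _
  have h4 : (((s * p.1 + t * p.2 : ℕ) : ZMod m) = c) ↔
      fold (fun j => if j = 0 then (s : ZMod m) else (t : ZMod m))
        ((p.1 : ℤ) - L, (p.2 : ℤ) - L) = c - ((s + t) * L : ℕ) := by
    simp only [fold, if_true, one_ne_zero, if_false, Int.cast_sub, Int.cast_natCast]
    push_cast
    constructor
    · intro h
      rw [← h]
      ring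
    · intro h
      linear_combination h
  simp only [g, ι, coef, true_and]
  by_cases h5 : ((s * p.1 + t * p.2 : ℕ) : ZMod m) = c
  · rw [if_pos h5, if_pos (h4.1 h5), mul_one]
  · rw [if_neg h5, if_neg (fun h => h5 (h4.2 h)), mul_zero]

theorem folded_zero {n m : ℕ} {w : F}
    (hw : ∀ f : Fin 2 → Equiv.Perm (Fin n), FreeGroup.lift f w = 1)
    (hm : 0 < m) (h : m ≤ n / (2 * (Nat.log 2 w.toWord.length + 1))) (s : Fin 2 → ZMod m)
    (i : Fin 2) (c : ZMod m) : folded s w i c = 0 := by
  by_contra hne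
  set k := Nat.log 2 w.toWord.length + 1 with hk
  have h1 : 2 ^ k ≤ (folded s w i c).natAbs := by
    apply two_pow_le_of_dvd (by omega) (by omega)
    intro q hq0 hq
    have h2 := folded_dvd hw hm hq0 (by
      calc m * q ≤ n / (2 * k) * (2 * k) := Nat.mul_le_mul h hq
        _ ≤ n := Nat.div_mul_le_self _ _) s i c
    exact Int.natCast_dvd.1 h2
  have h2 := folded_bound s w i c
  have h3 : w.toWord.length < 2 ^ k := Nat.lt_pow_succ_log_self (by norm_num) _
  rw [Int.abs_eq_natAbs] at h2
  have h4 : (folded s w i c).natAbs ≤ w.toWord.length := by exact_mod_cast h2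
  exact absurd (h1.trans h4) (not_le.2 h3)

/-- The combinatorial core. -/
theorem core {n : ℕ} {w : F} (hw2 : w ∉ derivedSeries F 2)
    (hw : ∀ f : Fin 2 → Equiv.Perm (Fin n), FreeGroup.lift f w = 1) {R : ℕ}
    (hR : (128 : ℝ) * w.toWord.length < (R : ℝ) ^ 3) :
    ((n / (2 * (Nat.log 2 w.toWord.length + 1)) : ℕ) : ℝ) ^ 2 ≤
      32 * R * w.toWord.length := by
  have hflow : flow w ≠ 0 := fun h => hw2 (mem_second_of_flow w h)
  obtain ⟨⟨i, a, b⟩, hab⟩ := Finsupp.ne_iff.1 hflow
  rw [Finsupp.zero_apply] at hab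
  set L := w.toWord.length with hL
  set M := n / (2 * (Nat.log 2 L + 1)) with hM
  have hb := flow_support w _ (Finsupp.mem_support_iff.2 hab)
  simp only [abs_le] at hb
  -- some restriction does not vanish
  have hex : ∃ p ∈ cop R, restr (2 * L) (coef w i) p.1 p.2 ≠ 0 := by
    by_contra hcon
    push Not at hcon
    have h1 := degree_ge_of_restr (D := 2 * L) (R := R) (a := coef w i)
      ⟨(a + L).toNat, by omega, (b + L).toNat, by omega, by
        have h2 : (((a + L).toNat : ℕ) : ℤ) - w.toWord.length = a := by omega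
        have h3 : (((b + L).toNat : ℕ) : ℤ) - w.toWord.length = b := by omega
        rw [coef, h2, h3]
        exact hab⟩ hcon
    have h2 := sum_cop_ge R
    have h3 : ((∑ p ∈ cop R, p.2 : ℕ) : ℝ) ≤ 2 * L := by exact_mod_cast h1
    linarith
  obtain ⟨p, hp, hne⟩ := hex
  have h1 := totient_le_degree (M := M) hne (by
    intro m hm ζ hζ
    rw [Finset.mem_Icc] at hm
    apply restr_eval_eq_zero (by omega) _ hζ
    intro c
    have h2 := coef_fold (m := m) w i p.1 p.2 c
    rw [folded_zero hw (by omega) hm.2] at h2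
    exact h2)
  have h2 := h1.trans (restr_natDegree _ _ _ _)
  simp only [cop, Finset.mem_filter, Finset.mem_product, Finset.mem_Icc] at hp
  have h3 : (p.1 + p.2) * (2 * L) ≤ (2 * R) * (2 * L) :=
    Nat.mul_le_mul_right _ (by omega)
  have h4 := sum_totient_ge M
  have h5 : ((∑ m ∈ Finset.Icc 1 M, m.totient : ℕ) : ℝ) ≤ (2 * R) * (2 * L) := by
    exact_mod_cast h2.trans h3
  nlinarith

/-- Laws of `Sym(n)` outside the second derived subgroup have length at least
`(n / log n) ^ (3/2) / 2000`. -/
theorem main {n : ℕ} (hn : 2 ≤ n) {w : F} (hw2 : w ∉ derivedSeries F 2)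
    (hw : ∀ f : Fin 2 → Equiv.Perm (Fin n), FreeGroup.lift f w = 1) :
    ((n : ℝ) / Real.log n) ^ (3 / 2 : ℝ) / 2000 ≤ w.toWord.length := by
  have hw1 : w ≠ 1 := by
    rintro rfl
    exact hw2 (one_mem _)
  set L := w.toWord.length with hL
  have hL1 : 1 ≤ L := by
    by_contra h
    have : w.toWord = [] := List.length_eq_zero_iff.1 (by omega)
    exact hw1 (FreeGroup.toWord_eq_nil_iff.1 this)
  have hnR : (2 : ℝ) ≤ n := by exact_mod_cast hn
  have hLR : (1 : ℝ) ≤ L := by exact_mod_cast hL1
  have hlog2 : (0.69 : ℝ) < Real.log 2 := by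
    have := Real.log_two_gt_d9
    linarith
  have hlogn : Real.log 2 ≤ Real.log n := Real.log_le_log (by norm_num) hnR
  have hlogpos : 0 < Real.log n := by linarith
  have hlogle : Real.log n ≤ n := by
    have := Real.log_le_sub_one_of_pos (x := (n : ℝ)) (by linarith)
    linarith
  -- the square root
  set z := Real.sqrt ((n : ℝ) / Real.log n) with hz
  have hz0 : 0 ≤ z := Real.sqrt_nonneg _
  have hz2 : z ^ 2 = (n : ℝ) / Real.log n := Real.sq_sqrt (by positivity)
  have hz3 : ((n : ℝ) / Real.log n) ^ (3 / 2 : ℝ) = z ^ 3 := by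
    rw [hz, Real.sqrt_eq_rpow, ← Real.rpow_natCast, ← Real.rpow_mul (by positivity)]
    norm_num
  rw [hz3]
  have hz1 : 1 ≤ z := by
    rw [hz]
    rw [Real.one_le_sqrt]
    rw [one_le_div hlogpos]
    exact hlogle
  rcases le_or_gt ((n : ℝ) ^ 2) L with hcase | hcase
  · -- long words
    have h1 : z ^ 2 ≤ 2 * n := by
      rw [hz2, div_le_iff₀ hlogpos]
      nlinarith
    have h2 : z ^ 3 ≤ z ^ 4 := by
      calc z ^ 3 = z ^ 3 * 1 := by ring
        _ ≤ z ^ 3 * z := mul_le_mul_of_nonneg_left hz1 (by positivity)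
        _ = z ^ 4 := by ring
    have h3 : z ^ 4 ≤ 4 * (n : ℝ) ^ 2 := by
      calc z ^ 4 = z ^ 2 * z ^ 2 := by ring
        _ ≤ (2 * (n : ℝ)) * (2 * (n : ℝ)) := mul_le_mul h1 h1 (by positivity) (by positivity)
        _ = 4 * (n : ℝ) ^ 2 := by ring
    linarith
  · -- short words
    set x := (L : ℝ) ^ (1 / 3 : ℝ) with hx
    have hx3 : x ^ 3 = L := by
      rw [hx, ← Real.rpow_natCast, ← Real.rpow_mul (by positivity)]
      norm_num
    have hx1 : 1 ≤ x := Real.one_le_rpow hLR (by norm_num)
    set R := ⌈6 * x⌉₊ with hR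
    have hR1 : 6 * x ≤ R := Nat.le_ceil _
    have hR2 : (R : ℝ) ≤ 7 * x := by
      have := Nat.ceil_lt_add_one (a := 6 * x) (by positivity)
      linarith
    have hR3 : (128 : ℝ) * L < (R : ℝ) ^ 3 := by
      calc (128 : ℝ) * L < 216 * L := by linarith
        _ = (6 * x) ^ 3 := by rw [← hx3]; ring
        _ ≤ (R : ℝ) ^ 3 := by gcongr
    have h1 := core hw2 hw hR3
    rw [← hL] at h1
    set k := Nat.log 2 L + 1 with hk
    set M := n / (2 * k) with hM
    have h2 : (M : ℝ) ≤ 15 * x ^ 2 := by
      apply le_of_sq_le_sq _ (by positivity)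
      calc (M : ℝ) ^ 2 ≤ 32 * R * L := h1
        _ ≤ 32 * (7 * x) * L := by gcongr
        _ = 224 * (x ^ 2) ^ 2 := by rw [← hx3]; ring
        _ ≤ (15 * x ^ 2) ^ 2 := by nlinarith [sq_nonneg (x ^ 2)]
    have h3 : (n : ℝ) ≤ 2 * k * (M + 1) := by
      have : n < (2 * k) * (n / (2 * k) + 1) := Nat.lt_mul_div_succ _ (by omega)
      have h4 : n ≤ 2 * k * (M + 1) := this.le
      exact_mod_cast h4
    have h4 : (k : ℝ) * Real.log 2 ≤ 3 * Real.log n := by
      have h5 : (2 : ℝ) ^ (Nat.log 2 L) ≤ L := by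
        exact_mod_cast Nat.pow_log_le_self 2 (by omega)
      have h6 : (Nat.log 2 L : ℝ) * Real.log 2 ≤ Real.log L := by
        rw [← Real.log_pow]
        exact Real.log_le_log (by positivity) h5
      have h7 : Real.log L ≤ 2 * Real.log n := by
        have : Real.log L ≤ Real.log ((n : ℝ) ^ 2) := Real.log_le_log (by linarith) hcase.le
        rwa [Real.log_pow] at this
      rw [hk]
      push_cast
      nlinarith
    have h5 : (k : ℝ) ≤ 4.35 * Real.log n := by
      nlinarith
    have h6 : (n : ℝ) ≤ 144 * x ^ 2 * Real.log n := by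
      have h7 : (M : ℝ) + 1 ≤ 16 * x ^ 2 := by nlinarith
      calc (n : ℝ) ≤ 2 * k * (M + 1) := h3
        _ ≤ 2 * (4.35 * Real.log n) * (16 * x ^ 2) := by gcongr
        _ = 139.2 * (x ^ 2 * Real.log n) := by ring
        _ ≤ 144 * (x ^ 2 * Real.log n) := by gcongr; norm_num
        _ = 144 * x ^ 2 * Real.log n := by ring
    have h7 : z ≤ 12 * x := by
      apply le_of_sq_le_sq _ (by positivity)
      rw [hz2, div_le_iff₀ hlogpos]
      calc (n : ℝ) ≤ 144 * x ^ 2 * Real.log n := h6
        _ = (12 * x) ^ 2 * Real.log n := by ring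
    have h8 : z ^ 3 ≤ 1728 * (L : ℝ) := by
      calc z ^ 3 ≤ (12 * x) ^ 3 := by gcongr
        _ = 1728 * (L : ℝ) := by rw [← hx3]; ring
    linarith

end Pool.MP99279c.Met
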