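import Mathlib

/-!
Arithmetic input: divisibility by all small integers, and counting coprime pairs.
-/

set_option autoImplicit false

namespace Pool.MP99279c.Met

/-- A nonzero integer divisible by all of `1, …, 2k` is at least `2 ^ k`. -/
theorem two_pow_le_of_dvd {k S : ℕ} (hk : 0 < k) (hS : S ≠ 0)
    (h : ∀ q, 0 < q → q ≤ 2 * k → q ∣ S) : 2 ^ k ≤ S := by
  have h1 : k.centralBinom ∣ S := by
    rw [← Nat.factorization_prime_le_iff_dvd (Nat.centralBinom_ne_zero k) hS]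
    intro p hp
    rw [← hp.pow_dvd_iff_le_factorization hS]
    apply h
    · exact pow_pos hp.pos _
    · exact Nat.pow_factorization_choose_le (by omega)
  have h2 := Nat.le_of_dvd (Nat.pos_of_ne_zero hS) h1
  have h3 := Nat.four_pow_le_two_mul_self_mul_centralBinom k hk
  have h4 : 2 * k ≤ 2 ^ k := by
    clear h h1 h2 h3 hS
    induction k with
    | zero => omega
    | succ k ih =>
      rcases Nat.eq_zero_or_pos k with h | h
      · subst h; norm_num
      · have := ih h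
        rw [pow_succ]
        omega
  have h5 : (4 : ℕ) ^ k = 2 ^ k * 2 ^ k := by
    rw [← mul_pow]
    norm_num
  have h6 : 2 ^ k * 2 ^ k ≤ 2 ^ k * k.centralBinom := by
    calc 2 ^ k * 2 ^ k = 4 ^ k := h5.symm
      _ ≤ 2 * k * k.centralBinom := h3
      _ ≤ 2 ^ k * k.centralBinom := Nat.mul_le_mul_right _ h4
  exact (Nat.le_of_mul_le_mul_left h6 (by positivity)).trans h2

/-- Coprime pairs in a square. -/
def cop (R : ℕ) : Finset (ℕ × ℕ) :=
  (Finset.Icc 1 R ×ˢ Finset.Icc 1 R).filter fun p => Nat.Coprime p.1 p.2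

theorem sum_inv_sq (R : ℕ) (hR : 2 ≤ R) :
    ∑ d ∈ Finset.Icc 2 R, (1 : ℝ) / (d : ℝ) ^ 2 ≤ 3 / 4 - 1 / R := by
  induction R, hR using Nat.le_induction with
  | base => norm_num
  | succ R hR ih =>
    rw [Finset.sum_Icc_succ_top (by omega)]
    have hR0 : (0 : ℝ) < R := by positivity
    have h1 : (1 : ℝ) / ((R + 1 : ℕ) : ℝ) ^ 2 ≤ 1 / R - 1 / ((R + 1 : ℕ) : ℝ) := by
      push_cast
      rw [div_sub_div _ _ (by positivity) (by positivity), div_le_div_iff₀ (by positivity)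
        (by positivity)]
      nlinarith
    linarith

theorem card_multiples (R d : ℕ) :
    ((Finset.Icc 1 R).filter fun x => d ∣ x).card = R / d := by
  have := Nat.card_multiples R d
  have h2 := Nat.Ioc_filter_dvd_card_eq_div R d
  rw [← h2]
  rfl

theorem card_cop (R : ℕ) : (R : ℝ) ^ 2 / 4 ≤ (cop R).card := by
  rcases Nat.lt_or_ge R 2 with hR | hR
  · interval_cases R
    · simp
    · have : cop 1 = {(1, 1)} := by decide
      rw [this]
      norm_num
  have hcov : Finset.Icc 1 R ×ˢ Finset.Icc 1 R ⊆ cop R ∪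
      (Finset.Icc 2 R).biUnion fun d => ((Finset.Icc 1 R).filter fun x => d ∣ x) ×ˢ
        ((Finset.Icc 1 R).filter fun x => d ∣ x) := by
    rintro ⟨a, b⟩ hab
    rw [Finset.mem_product] at hab
    obtain ⟨ha, hb⟩ := hab
    rw [Finset.mem_union]
    by_cases hc : Nat.Coprime a b
    · left
      simp only [cop, Finset.mem_filter, Finset.mem_product]
      exact ⟨⟨ha, hb⟩, hc⟩
    · right
      rw [Finset.mem_biUnion]
      simp only [Finset.mem_Icc] at ha hb
      refine ⟨Nat.gcd a b, ?_, ?_⟩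
      · rw [Finset.mem_Icc]
        have h0 : 0 < Nat.gcd a b := Nat.gcd_pos_of_pos_left _ ha.1
        have h1 : Nat.gcd a b ≠ 1 := hc
        have h2 : Nat.gcd a b ≤ a := Nat.gcd_le_left _ ha.1
        omega
      · simp only [Finset.mem_product, Finset.mem_filter, Finset.mem_Icc]
        exact ⟨⟨ha, Nat.gcd_dvd_left _ _⟩, ⟨hb, Nat.gcd_dvd_right _ _⟩⟩
  have h1 := Finset.card_le_card hcov
  have h2 := h1.trans (Finset.card_union_le _ _)
  have h3 := h2.trans (Nat.add_le_add_left Finset.card_biUnion_le _)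
  rw [Finset.card_product, Nat.card_Icc] at h3
  have h4 : ((∑ d ∈ Finset.Icc 2 R, (((Finset.Icc 1 R).filter fun x => d ∣ x) ×ˢ
        ((Finset.Icc 1 R).filter fun x => d ∣ x)).card : ℕ) : ℝ) ≤
      ∑ d ∈ Finset.Icc 2 R, (R : ℝ) ^ 2 * (1 / (d : ℝ) ^ 2) := by
    push_cast
    apply Finset.sum_le_sum
    intro d hd
    rw [Finset.mem_Icc] at hd
    rw [Finset.card_product, card_multiples R d]
    push_cast
    have h5 : ((R / d : ℕ) : ℝ) ≤ (R : ℝ) / d := Nat.cast_div_le
    have h6 : (0 : ℝ) ≤ ((R / d : ℕ) : ℝ) := Nat.cast_nonneg _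
    calc ((R / d : ℕ) : ℝ) * ((R / d : ℕ) : ℝ) ≤ ((R : ℝ) / d) * ((R : ℝ) / d) :=
          mul_le_mul h5 h5 h6 (by positivity)
      _ = (R : ℝ) ^ 2 * (1 / (d : ℝ) ^ 2) := by
          have : (d : ℝ) ≠ 0 := by
            have : 0 < d := by omega
            positivity
          field_simp
  rw [← Finset.mul_sum] at h4
  have h7 := sum_inv_sq R hR
  have hR0 : (0 : ℝ) < R := by
    have : 0 < R := by omega
    positivity
  have h8 : (R : ℝ) ^ 2 * ∑ d ∈ Finset.Icc 2 R, (1 : ℝ) / (d : ℝ) ^ 2 ≤ (R : ℝ) ^ 2 * (3 / 4) := by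
    apply mul_le_mul_of_nonneg_left _ (by positivity)
    have : (0 : ℝ) ≤ 1 / R := by positivity
    linarith
  have h9 : (R : ℝ) * R ≤ (cop R).card + ((∑ d ∈ Finset.Icc 2 R,
      (((Finset.Icc 1 R).filter fun x => d ∣ x) ×ˢ
        ((Finset.Icc 1 R).filter fun x => d ∣ x)).card : ℕ) : ℝ) := by
    have : R * R ≤ (cop R).card + ∑ d ∈ Finset.Icc 2 R,
      (((Finset.Icc 1 R).filter fun x => d ∣ x) ×ˢ
        ((Finset.Icc 1 R).filter fun x => d ∣ x)).card := by simpa using h3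
    exact_mod_cast this
  nlinarith

/-- The number of primitive fractions with denominator at most `M`. -/
theorem sum_totient_ge (M : ℕ) : (M : ℝ) ^ 2 / 8 ≤ ((∑ m ∈ Finset.Icc 1 M, m.totient : ℕ) : ℝ) := by
  -- every coprime pair `(a, b)` has `a ≤ b` or `b ≤ a`
  have h1 : (cop M).card ≤ 2 * ∑ m ∈ Finset.Icc 1 M, m.totient := by
    have hA : ((cop M).filter fun p => p.1 ≤ p.2).card ≤ ∑ m ∈ Finset.Icc 1 M, m.totient := by
      have : (cop M).filter (fun p => p.1 ≤ p.2) ⊆ (Finset.Icc 1 M).biUnion fun m =>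
          ((Finset.Icc 1 m).filter fun a => Nat.Coprime m a).image fun a => (a, m) := by
        rintro ⟨a, b⟩ h
        simp only [cop, Finset.mem_filter, Finset.mem_product, Finset.mem_Icc] at h
        simp only [Finset.mem_biUnion, Finset.mem_image, Finset.mem_filter, Finset.mem_Icc]
        exact ⟨b, h.1.1.2, a, ⟨⟨h.1.1.1.1, h.2⟩, h.1.2.symm⟩, rfl⟩
      refine (Finset.card_le_card this).trans (Finset.card_biUnion_le.trans ?_)
      apply Finset.sum_le_sum
      intro m _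
      refine Finset.card_image_le.trans ?_
      rw [← Nat.filter_coprime_Ico_eq_totient m 1]
      apply Finset.card_le_card
      intro a ha
      simp only [Finset.mem_filter, Finset.mem_Icc, Finset.mem_Ico] at ha ⊢
      exact ⟨by omega, ha.2⟩
    have hB : ((cop M).filter fun p => ¬ p.1 ≤ p.2).card ≤ ∑ m ∈ Finset.Icc 1 M, m.totient := by
      refine le_trans (Finset.card_le_card_of_injOn (fun p => (p.2, p.1)) ?_ ?_) hA
      · rintro ⟨a, b⟩ h
        simp only [cop, Finset.coe_filter, Finset.mem_filter, Finset.mem_product, Finset.mem_Icc,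
          Set.mem_ofPred_eq] at h ⊢
        exact ⟨⟨⟨h.1.1.2, h.1.1.1⟩, h.1.2.symm⟩, by omega⟩
      · rintro ⟨a, b⟩ _ ⟨c, d⟩ _ h
        simp only [Prod.mk.injEq] at h ⊢
        exact ⟨h.2, h.1⟩
    have := Finset.card_filter_add_card_filter_not (s := cop M) (fun p : ℕ × ℕ => p.1 ≤ p.2)
    omega
  have h2 := card_cop M
  have h3 : ((cop M).card : ℝ) ≤ 2 * ((∑ m ∈ Finset.Icc 1 M, m.totient : ℕ) : ℝ) := by
    exact_mod_cast h1
  linarith

/-- The sum of the second coordinates of the coprime pairs in a square. -/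
theorem sum_cop_ge (R : ℕ) : (R : ℝ) ^ 3 / 64 ≤ ((∑ p ∈ cop R, p.2 : ℕ) : ℝ) := by
  have h1 := card_cop R
  -- pairs with small second coordinate
  have h2 : (((cop R).filter fun p => 8 * p.2 ≤ R).card : ℝ) ≤ (R : ℝ) ^ 2 / 8 := by
    have : ((cop R).filter fun p => 8 * p.2 ≤ R) ⊆ Finset.Icc 1 R ×ˢ Finset.Icc 1 (R / 8) := by
      rintro ⟨a, b⟩ h
      simp only [cop, Finset.mem_filter, Finset.mem_product, Finset.mem_Icc] at h
      simp only [Finset.mem_product, Finset.mem_Icc]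
      exact ⟨h.1.1.1, h.1.1.2.1, by omega⟩
    have h3 := Finset.card_le_card this
    rw [Finset.card_product, Nat.card_Icc, Nat.card_Icc, Nat.add_sub_cancel,
      Nat.add_sub_cancel] at h3
    have h4 : (((cop R).filter fun p => 8 * p.2 ≤ R).card : ℝ) ≤ (R : ℝ) * ((R / 8 : ℕ) : ℝ) := by
      exact_mod_cast h3
    have h5 : ((R / 8 : ℕ) : ℝ) ≤ (R : ℝ) / 8 := by
      have := @Nat.cast_div_le ℝ _ _ _ R 8
      simpa using this
    have h6 : (0 : ℝ) ≤ R := Nat.cast_nonneg _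
    nlinarith
  have h3 := Finset.card_filter_add_card_filter_not (s := cop R) (fun p : ℕ × ℕ => 8 * p.2 ≤ R)
  have h4 : (R : ℝ) ^ 2 / 8 ≤ (((cop R).filter fun p => ¬ 8 * p.2 ≤ R).card : ℝ) := by
    have : ((cop R).card : ℝ) = (((cop R).filter fun p => 8 * p.2 ≤ R).card : ℝ) +
      (((cop R).filter fun p => ¬ 8 * p.2 ≤ R).card : ℝ) := by exact_mod_cast h3.symm
    linarith
  have h5 : ∑ p ∈ (cop R).filter (fun p => ¬ 8 * p.2 ≤ R), ((R : ℝ) / 8) ≤
      ∑ p ∈ (cop R).filter (fun p => ¬ 8 * p.2 ≤ R), ((p.2 : ℕ) : ℝ) := by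
    apply Finset.sum_le_sum
    intro p hp
    rw [Finset.mem_filter] at hp
    have : (R : ℝ) ≤ 8 * (p.2 : ℝ) := by
      have := hp.2
      have h : R ≤ 8 * p.2 := by omega
      exact_mod_cast h
    linarith
  have h6 : ∑ p ∈ (cop R).filter (fun p => ¬ 8 * p.2 ≤ R), ((p.2 : ℕ) : ℝ) ≤
      ∑ p ∈ cop R, ((p.2 : ℕ) : ℝ) :=
    Finset.sum_le_sum_of_subset_of_nonneg (Finset.filter_subset _ _) fun _ _ _ => Nat.cast_nonneg _
  rw [Finset.sum_const, nsmul_eq_mul] at h5
  push_cast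
  have h7 : (0 : ℝ) ≤ R := Nat.cast_nonneg _
  nlinarith

end Pool.MP99279c.Met
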