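import Mathlib

/-!
Flows of words of the free group of rank two on the grid `ℤ × ℤ`.

A word is read from right to left as a path in the grid starting at the origin; its flow counts,
for every oriented edge, how often (with sign) the path uses it.
-/

set_option autoImplicit false

namespace Pool.MP99279c.Met

/-- The free group on two letters. -/
abbrev F := FreeGroup (Fin 2)

/-- Oriented edges of the grid: the label and the starting point. -/
abbrev Edge := Fin 2 × (ℤ × ℤ)

/-- The unit vector of a label. -/
def e (i : Fin 2) : ℤ × ℤ := if i = 0 then (1, 0) else (0, 1)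

/-- States: the current point and the flow so far. -/
abbrev St := (ℤ × ℤ) × (Edge →₀ ℤ)

/-- One step along the label `i`. -/
noncomputable def step (i : Fin 2) : Equiv.Perm St where
  toFun s := (s.1 + e i, s.2 + Finsupp.single (i, s.1) 1)
  invFun s := (s.1 - e i, s.2 - Finsupp.single (i, s.1 - e i) 1)
  left_inv s := by simp
  right_inv s := by simp

/-- The action of the free group on the states. -/
noncomputable def act : F →* Equiv.Perm St := FreeGroup.lift step

/-- End point of the path of a word. -/
noncomputable def pos (w : F) : ℤ × ℤ := (act w (0, 0)).1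

/-- Flow of the path of a word. -/
noncomputable def flow (w : F) : Edge →₀ ℤ := (act w (0, 0)).2

theorem pos_one : pos 1 = 0 := by simp [pos]

theorem flow_one : flow 1 = 0 := by simp [flow]

theorem pos_of_mul (i : Fin 2) (w : F) : pos (FreeGroup.of i * w) = pos w + e i := by
  simp [pos, act, step]

theorem flow_of_mul (i : Fin 2) (w : F) :
    flow (FreeGroup.of i * w) = flow w + Finsupp.single (i, pos w) 1 := by
  simp [pos, flow, act, step]

theorem step_inv_apply (i : Fin 2) (s : St) :
    (step i)⁻¹ s = (s.1 - e i, s.2 - Finsupp.single (i, s.1 - e i) 1) := rfl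

theorem pos_inv_mul (i : Fin 2) (w : F) : pos ((FreeGroup.of i)⁻¹ * w) = pos w - e i := by
  simp only [pos, act, map_mul, map_inv, FreeGroup.lift_apply_of, Equiv.Perm.mul_apply,
    step_inv_apply]

theorem flow_inv_mul (i : Fin 2) (w : F) :
    flow ((FreeGroup.of i)⁻¹ * w) = flow w - Finsupp.single (i, pos w - e i) 1 := by
  simp only [pos, flow, act, map_mul, map_inv, FreeGroup.lift_apply_of, Equiv.Perm.mul_apply,
    step_inv_apply]

/-- Induction over the letters of a word, read from the right, with control of the length. -/
theorem word_induction {C : ℕ → F → Prop} (h1 : C 0 1)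
    (hof : ∀ n i w, C n w → C (n + 1) (FreeGroup.of i * w))
    (hinv : ∀ n i w, C n w → C (n + 1) ((FreeGroup.of i)⁻¹ * w)) (w : F) :
    C w.toWord.length w := by
  have key : ∀ L : List (Fin 2 × Bool), C L.length (FreeGroup.mk L) := by
    intro L
    induction L with
    | nil => exact h1
    | cons a L ih =>
      obtain ⟨i, b⟩ := a
      cases b with
      | true =>
        have : FreeGroup.mk ((i, true) :: L) = FreeGroup.of i * FreeGroup.mk L := rfl
        rw [this]
        exact hof _ _ _ ih
      | false =>
        have : FreeGroup.mk ((i, false) :: L) = (FreeGroup.of i)⁻¹ * FreeGroup.mk L := rfl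
        rw [this]
        exact hinv _ _ _ ih
  have := key w.toWord
  rwa [FreeGroup.mk_toWord] at this

/-- The end point is determined by the flow. -/
theorem pos_eq (w : F) : pos w = Finsupp.linearCombination ℤ (fun x : Edge => e x.1) (flow w) := by
  refine word_induction (C := fun _ w => pos w =
    Finsupp.linearCombination ℤ (fun x : Edge => e x.1) (flow w)) ?_ ?_ ?_ w
  · simp [pos_one, flow_one]
  · intro n i w h
    simp [pos_of_mul, flow_of_mul, h]
  · intro n i w h
    simp [pos_inv_mul, flow_inv_mul, h]

/-- Coordinates stay bounded by the length. -/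
theorem pos_bound (w : F) :
    |(pos w).1| ≤ w.toWord.length ∧ |(pos w).2| ≤ w.toWord.length := by
  refine word_induction (C := fun n w => |(pos w).1| ≤ n ∧ |(pos w).2| ≤ n) ?_ ?_ ?_ w
  · simp [pos_one]
  · intro n i w h
    rw [pos_of_mul]
    obtain ⟨h1, h2⟩ := h
    rw [abs_le] at h1 h2
    constructor <;> rw [abs_le] <;> fin_cases i <;> simp [e] <;> omega
  · intro n i w h
    rw [pos_inv_mul]
    obtain ⟨h1, h2⟩ := h
    rw [abs_le] at h1 h2
    constructor <;> rw [abs_le] <;> fin_cases i <;> simp [e] <;> omega

/-- The flow lives on a box given by the length. -/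
theorem flow_support (w : F) : ∀ x ∈ (flow w).support,
    |x.2.1| ≤ w.toWord.length ∧ |x.2.2| ≤ w.toWord.length := by
  have := word_induction (C := fun n w => (|(pos w).1| ≤ n ∧ |(pos w).2| ≤ n) ∧
    ∀ x ∈ (flow w).support, |x.2.1| ≤ n ∧ |x.2.2| ≤ n) ?_ ?_ ?_ w
  · exact this.2
  · simp [pos_one, flow_one]
  · intro n i w h
    obtain ⟨⟨h1, h2⟩, h3⟩ := h
    constructor
    · rw [pos_of_mul]
      rw [abs_le] at h1 h2
      constructor <;> rw [abs_le] <;> fin_cases i <;> simp [e] <;> omega
    · intro x hx
      rw [flow_of_mul] at hx
      rcases Finset.mem_union.1 (Finsupp.support_add hx) with h | h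
      · have := h3 x h
        push_cast
        exact ⟨by omega, by omega⟩
      · have := Finset.mem_singleton.1 (Finsupp.support_single_subset h)
        rw [this]
        push_cast
        exact ⟨by omega, by omega⟩
  · intro n i w h
    obtain ⟨⟨h1, h2⟩, h3⟩ := h
    have h4 : |(pos w - e i).1| ≤ n + 1 ∧ |(pos w - e i).2| ≤ n + 1 := by
      rw [abs_le] at h1 h2
      constructor <;> rw [abs_le] <;> fin_cases i <;> simp [e] <;> omega
    constructor
    · rw [pos_inv_mul]
      push_cast
      exact h4
    · intro x hx
      rw [flow_inv_mul, sub_eq_add_neg, ← Finsupp.single_neg] at hx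
      rcases Finset.mem_union.1 (Finsupp.support_add hx) with h | h
      · have := h3 x h
        push_cast
        exact ⟨by omega, by omega⟩
      · have := Finset.mem_singleton.1 (Finsupp.support_single_subset h)
        rw [this]
        push_cast
        exact h4

/-- Integrals of functions bounded by one against the flow are bounded by the length. -/
theorem flow_integral (w : F) (h : Edge → ℤ) (hh : ∀ x, |h x| ≤ 1) :
    |Finsupp.linearCombination ℤ h (flow w)| ≤ w.toWord.length := by
  refine word_induction (C := fun n w =>
    |Finsupp.linearCombination ℤ h (flow w)| ≤ n) ?_ ?_ ?_ w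
  · simp [flow_one]
  · intro n i w ih
    rw [flow_of_mul, map_add]
    have h1 := hh (i, pos w)
    rw [Finsupp.linearCombination_single, one_smul]
    rw [abs_le] at *
    push_cast
    constructor <;> omega
  · intro n i w ih
    rw [flow_inv_mul, map_sub]
    have h1 := hh (i, pos w - e i)
    rw [Finsupp.linearCombination_single, one_smul]
    rw [abs_le] at *
    push_cast
    constructor <;> omega

end Pool.MP99279c.Met
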