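import Pool.Agent.Work.MP_99279c_al.Met.Arith

/-!
Integer polynomials in two variables whose restrictions to one-parameter subgroups vanish at all
roots of unity of small order.
-/

set_option autoImplicit false

namespace Pool.MP99279c.Met

open Polynomial

/-- The restriction `a(T^s, T^t)` of a polynomial with coefficients `a i j`, `i, j ≤ D`. -/
noncomputable def restr (D : ℕ) (a : ℕ → ℕ → ℤ) (s t : ℕ) : ℂ[X] :=
  ∑ p ∈ Finset.range (D + 1) ×ˢ Finset.range (D + 1), C (a p.1 p.2 : ℂ) * X ^ (s * p.1 + t * p.2)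

theorem restr_natDegree (D : ℕ) (a : ℕ → ℕ → ℤ) (s t : ℕ) :
    (restr D a s t).natDegree ≤ (s + t) * D := by
  apply natDegree_sum_le_of_forall_le
  intro p hp
  rw [Finset.mem_product, Finset.mem_range, Finset.mem_range] at hp
  refine (natDegree_C_mul_X_pow_le _ _).trans ?_
  nlinarith [Nat.mul_le_mul_left s (Nat.lt_succ_iff.1 hp.1),
    Nat.mul_le_mul_left t (Nat.lt_succ_iff.1 hp.2)]

/-- Vanishing folded sums give roots of unity as roots. -/
theorem restr_eval_eq_zero {D : ℕ} {a : ℕ → ℕ → ℤ} {s t m : ℕ} (hm : 0 < m)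
    (h : ∀ c : ZMod m, ∑ p ∈ (Finset.range (D + 1) ×ˢ Finset.range (D + 1)).filter
      (fun p => ((s * p.1 + t * p.2 : ℕ) : ZMod m) = c), a p.1 p.2 = 0) {ζ : ℂ} (hζ : ζ ^ m = 1) :
    (restr D a s t).eval ζ = 0 := by
  have : NeZero m := ⟨hm.ne'⟩
  rw [restr, eval_finsetSum, ← Finset.sum_fiberwise _
    (fun p : ℕ × ℕ => ((s * p.1 + t * p.2 : ℕ) : ZMod m))]
  apply Finset.sum_eq_zero
  intro c _
  have h1 : ∀ p ∈ (Finset.range (D + 1) ×ˢ Finset.range (D + 1)).filter
      (fun p => ((s * p.1 + t * p.2 : ℕ) : ZMod m) = c),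
      eval ζ (C (a p.1 p.2 : ℂ) * X ^ (s * p.1 + t * p.2)) = (a p.1 p.2 : ℂ) * ζ ^ c.val := by
    intro p hp
    rw [Finset.mem_filter] at hp
    rw [eval_mul, eval_C, eval_pow, eval_X]
    congr 1
    have h2 : c.val = (s * p.1 + t * p.2) % m := by
      rw [← hp.2, ZMod.val_natCast]
    rw [h2]
    exact pow_eq_pow_mod _ hζ
  rw [Finset.sum_congr rfl h1, ← Finset.sum_mul]
  have h3 := h c
  have h4 : (∑ p ∈ (Finset.range (D + 1) ×ˢ Finset.range (D + 1)).filter
      (fun p => ((s * p.1 + t * p.2 : ℕ) : ZMod m) = c), (a p.1 p.2 : ℂ)) = 0 := by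
    exact_mod_cast h3
  rw [h4, zero_mul]

/-- Counting roots of unity. -/
theorem totient_le_degree {f : ℂ[X]} (hf : f ≠ 0) {M : ℕ}
    (h : ∀ m ∈ Finset.Icc 1 M, ∀ ζ : ℂ, ζ ^ m = 1 → f.eval ζ = 0) :
    ∑ m ∈ Finset.Icc 1 M, m.totient ≤ f.natDegree := by
  classical
  have h1 : ((Finset.Icc 1 M).biUnion fun m => primitiveRoots m ℂ).card =
      ∑ m ∈ Finset.Icc 1 M, m.totient := by
    rw [Finset.card_biUnion]
    · exact Finset.sum_congr rfl fun m _ => Complex.card_primitiveRoots m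
    · intro k _ l _ hkl
      exact IsPrimitiveRoot.disjoint hkl
  rw [← h1]
  refine le_trans (Finset.card_le_card (t := f.roots.toFinset) ?_)
    ((Multiset.toFinset_card_le _).trans (card_roots' f))
  intro ζ hζ
  rw [Finset.mem_biUnion] at hζ
  obtain ⟨m, hm, h2⟩ := hζ
  rw [Multiset.mem_toFinset, mem_roots hf, IsRoot.def]
  apply h m hm
  rw [Finset.mem_Icc] at hm
  exact ((mem_primitiveRoots (by omega)).1 h2).pow_eq_one

/-- If all restrictions in directions `(s, t)`, `1 ≤ s, t ≤ R` coprime, vanish, then the degree is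
large. -/
theorem degree_ge_of_restr {D R : ℕ} {a : ℕ → ℕ → ℤ}
    (hne : ∃ i ≤ D, ∃ j ≤ D, a i j ≠ 0)
    (h : ∀ p ∈ cop R, restr D a p.1 p.2 = 0) :
    ∑ p ∈ cop R, p.2 ≤ D := by
  classical
  obtain ⟨i₀, hi₀, j₀, hj₀, ha⟩ := hne
  -- a real number `y > 1` at which the coefficient does not vanish
  obtain ⟨y, hy1, hy2⟩ : ∃ y : ℝ, 1 < y ∧
      ∑ j ∈ Finset.range (D + 1), (a i₀ j : ℝ) * y ^ j ≠ 0 := by
    let q : ℝ[X] := ∑ j ∈ Finset.range (D + 1), C (a i₀ j : ℝ) * X ^ j
    have hq : q ≠ 0 := by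
      intro hq
      have : q.coeff j₀ = a i₀ j₀ := by
        simp only [q, finsetSum_coeff, coeff_C_mul, coeff_X_pow, mul_ite, mul_one, mul_zero]
        rw [Finset.sum_ite_eq, if_pos (Finset.mem_range.2 (by omega))]
      rw [hq, coeff_zero] at this
      exact ha (by exact_mod_cast this.symm)
    have hfin : (q.roots.toFinset : Set ℝ).Finite := Finset.finite_toSet _
    obtain ⟨y, hy, hy'⟩ := (Set.Ioi_infinite (1 : ℝ)).exists_notMem_finset q.roots.toFinset
    refine ⟨y, hy, ?_⟩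
    rw [Multiset.mem_toFinset, mem_roots hq, IsRoot.def] at hy'
    simpa [q, eval_finsetSum] using hy'
  -- the polynomial in the first variable
  let H : ℂ[X] := ∑ i ∈ Finset.range (D + 1),
    C (∑ j ∈ Finset.range (D + 1), (a i j : ℂ) * (y : ℂ) ^ j) * X ^ i
  have hH : H ≠ 0 := by
    intro hH
    have h1 : H.coeff i₀ = ∑ j ∈ Finset.range (D + 1), (a i₀ j : ℂ) * (y : ℂ) ^ j := by
      simp only [H, finsetSum_coeff, coeff_C_mul, coeff_X_pow, mul_ite, mul_one, mul_zero]
      rw [Finset.sum_ite_eq, if_pos (Finset.mem_range.2 (by omega))]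
    rw [hH, coeff_zero] at h1
    apply hy2
    exact_mod_cast h1.symm
  have hHdeg : H.natDegree ≤ D := by
    apply natDegree_sum_le_of_forall_le
    intro i hi
    rw [Finset.mem_range] at hi
    exact (natDegree_C_mul_X_pow_le _ _).trans (by omega)
  -- roots
  have hroot : ∀ p ∈ cop R, ∀ T : ℂ, T ^ p.2 = y → H.eval (T ^ p.1) = 0 := by
    intro p hp T hT
    have h1 := congrArg (eval T) (h p hp)
    rw [eval_zero, restr, eval_finsetSum, Finset.sum_product] at h1
    rw [← h1]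
    simp only [H, eval_finsetSum, eval_mul, eval_C, eval_pow, eval_X, Finset.sum_mul]
    apply Finset.sum_congr rfl
    intro i _
    apply Finset.sum_congr rfl
    intro j _
    rw [pow_add, pow_mul, pow_mul, hT]
    ring
  have hy0 : (0 : ℝ) < y := by linarith
  -- number of roots
  let S : Finset ((_ : ℕ × ℕ) × ℂ) := (cop R).sigma fun p => (nthRoots p.2 (y : ℂ)).toFinset
  have hScard : S.card = ∑ p ∈ cop R, p.2 := by
    rw [Finset.card_sigma]
    apply Finset.sum_congr rfl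
    intro p hp
    have hp2 : 0 < p.2 := by
      simp only [cop, Finset.mem_filter, Finset.mem_product, Finset.mem_Icc] at hp
      omega
    have hprim := Complex.isPrimitiveRoot_exp p.2 hp2.ne'
    have hex : ∃ α : ℂ, α ^ p.2 = y := IsAlgClosed.exists_pow_nat_eq _ hp2
    have hnd : (nthRoots p.2 (y : ℂ)).Nodup :=
      hprim.nthRoots_nodup (by exact_mod_cast hy0.ne')
    rw [Multiset.toFinset_card_of_nodup hnd, hprim.card_nthRoots, if_pos hex]
  rw [← hScard]
  refine le_trans (Finset.card_le_card_of_injOn (t := H.roots.toFinset)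
    (fun z => z.2 ^ z.1.1) ?_ ?_)
    (((Multiset.toFinset_card_le _).trans (card_roots' H)).trans hHdeg)
  · rintro ⟨p, T⟩ hz
    rw [Finset.mem_coe, Finset.mem_sigma, Multiset.mem_toFinset] at hz
    simp only at hz
    have hp2 : 0 < p.2 := by
      have := hz.1
      simp only [cop, Finset.mem_filter, Finset.mem_product, Finset.mem_Icc] at this
      omega
    rw [mem_nthRoots hp2] at hz
    rw [Finset.mem_coe, Multiset.mem_toFinset, mem_roots hH, IsRoot.def]
    exact hroot p hz.1 T hz.2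
  · rintro ⟨⟨s, t⟩, T⟩ hz ⟨⟨s', t'⟩, T'⟩ hz' heq
    rw [Finset.mem_coe, Finset.mem_sigma, Multiset.mem_toFinset] at hz hz'
    simp only at hz hz' heq
    obtain ⟨hp, hT⟩ := hz
    obtain ⟨hp', hT'⟩ := hz'
    simp only [cop, Finset.mem_filter, Finset.mem_product, Finset.mem_Icc] at hp hp'
    rw [mem_nthRoots (by omega)] at hT hT'
    -- compare absolute values
    have hn : ‖T‖ ^ t = y := by rw [← norm_pow, hT, Complex.norm_of_nonneg hy0.le]
    have hn' : ‖T'‖ ^ t' = y := by rw [← norm_pow, hT', Complex.norm_of_nonneg hy0.le]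
    have hns : ‖T‖ ^ s = ‖T'‖ ^ s' := by rw [← norm_pow, ← norm_pow, heq]
    have h1 : y ^ (s * t') = y ^ (s' * t) := by
      calc y ^ (s * t') = (‖T‖ ^ t) ^ (s * t') := by rw [hn]
        _ = (‖T‖ ^ s) ^ (t * t') := by rw [← pow_mul, ← pow_mul]; ring_nf
        _ = (‖T'‖ ^ s') ^ (t * t') := by rw [hns]
        _ = (‖T'‖ ^ t') ^ (s' * t) := by rw [← pow_mul, ← pow_mul]; ring_nf
        _ = y ^ (s' * t) := by rw [hn']
    have h2 : s * t' = s' * t := pow_right_injective₀ hy0 hy1.ne' h1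
    have h3 : s = s' ∧ t = t' := by
      have hc : Nat.Coprime s t := hp.2
      have hc' : Nat.Coprime s' t' := hp'.2
      have d1 : s ∣ s' := hc.dvd_of_dvd_mul_right (Dvd.intro _ h2)
      have d2 : s' ∣ s := hc'.dvd_of_dvd_mul_right (Dvd.intro _ h2.symm)
      have hs : s = s' := Nat.dvd_antisymm d1 d2
      subst hs
      exact ⟨rfl, (Nat.eq_of_mul_eq_mul_left (by omega) h2).symm⟩
    obtain ⟨rfl, rfl⟩ := h3
    have hT0' : T' ≠ 0 := by
      rintro rfl
      rw [zero_pow (by omega)] at hT'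
      exact hy0.ne (by exact_mod_cast hT')
    have h4 : (T / T') ^ s = 1 := by
      rw [div_pow, heq, div_self (pow_ne_zero _ hT0')]
    have h5 : (T / T') ^ t = 1 := by
      rw [div_pow, hT, hT', div_self (by exact_mod_cast hy0.ne')]
    have h6 : (T / T') ^ (Nat.gcd s t) = 1 := pow_gcd_eq_one.2 ⟨h4, h5⟩
    rw [hp.2.gcd_eq_one, pow_one, div_eq_one_iff_eq hT0'] at h6
    rw [h6]

end Pool.MP99279c.Met
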